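import Pool.Agent.X238.DW.Stm3

set_option autoImplicit false

namespace Pool.Agent.X250.DW3

open MeasureTheory Set Filter Topology
open Pool.Agent.X238.DW

universe v

theorem t_SA : S_SA.{v} := by
  intro H _ _ _ A b hb hd hA hco
  have hlow : ∀ x : A.domain, b * ‖(x : H)‖ ≤ ‖A x‖ := by
    intro x
    have h1 := hco x
    have h2 := real_inner_le_norm (A x) (x : H)
    rcases eq_or_lt_of_le (norm_nonneg (x : H)) with h0 | h0
    · rw [← h0]; simp
    · have : b * ‖(x : H)‖ * ‖(x : H)‖ ≤ ‖A x‖ * ‖(x : H)‖ := by nlinarith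
      exact le_of_mul_le_mul_right this h0
  have hcl : A.IsClosed := by
    rw [← hA]
    exact A.adjoint_isClosed hd
  have hsym : ∀ x y : A.domain, inner ℝ (A x) (y : H) = inner ℝ (x : H) (A y) := by
    have h := LinearPMap.adjoint_isFormalAdjoint (T := A) hd
    rw [hA] at h
    intro x y
    exact h x y
  have hinj : Function.Injective A.toFun := by
    rw [injective_iff_map_eq_zero]
    intro x hx
    have h := hlow x
    have h' : A x = 0 := hx
    rw [h', norm_zero] at h
    have : ‖(x : H)‖ ≤ 0 := by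
      by_contra hh
      push_neg at hh
      nlinarith [mul_pos hb hh]
    have := norm_le_zero_iff.1 this
    exact Subtype.ext this
  have hran : LinearMap.range A.toFun = ⊤ := by
    have hclosed : IsClosed ((LinearMap.range A.toFun : Submodule ℝ H) : Set H) := by
      rw [← isSeqClosed_iff_isClosed]
      intro y y0 hy hlim
      choose x hx using hy
      have hc : CauchySeq (fun n => (x n : H)) := by
        have hyc := hlim.cauchySeq
        rw [Metric.cauchySeq_iff'] at hyc ⊢
        intro ε hε
        obtain ⟨N, hN⟩ := hyc (b * ε) (mul_pos hb hε)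
        refine ⟨N, fun n hn => ?_⟩
        have h1 := hN n hn
        rw [dist_eq_norm] at h1 ⊢
        have h2 := hlow (x n - x N)
        have h3 : A (x n - x N) = y n - y N := by
          rw [LinearPMap.map_sub]
          rw [← hx n, ← hx N]
          rfl
        rw [h3] at h2
        have h4 : ((x n - x N : A.domain) : H) = (x n : H) - x N := rfl
        rw [h4] at h2
        exact lt_of_mul_lt_mul_left (lt_of_le_of_lt h2 h1) hb.le
      obtain ⟨x0, hx0⟩ := cauchySeq_tendsto_of_complete hc
      have hmem : (x0, y0) ∈ (A.graph : Set (H × H)) := by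
        refine hcl.mem_of_tendsto (hx0.prodMk_nhds hlim) (Filter.Eventually.of_forall ?_)
        intro n
        have : ((x n : H), A (x n)) ∈ A.graph := A.mem_graph (x n)
        have h5 : A (x n) = y n := hx n
        rw [h5] at this
        exact this
      have hmem' : (x0, y0) ∈ A.graph := hmem
      rw [LinearPMap.mem_graph_iff] at hmem'
      obtain ⟨z, hz1, hz2⟩ := hmem'
      exact ⟨z, hz2⟩
    have : CompleteSpace (LinearMap.range A.toFun : Submodule ℝ H) := hclosed.completeSpace_coe
    rw [← Submodule.orthogonal_eq_bot_iff]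
    rw [Submodule.eq_bot_iff]
    intro y hy
    have hy' : ∀ x : A.domain, inner ℝ y (A x) = 0 := by
      intro x
      exact (Submodule.mem_orthogonal' _ _).1 hy (A x) ⟨x, rfl⟩
    have hex : ∀ x : A.domain, inner ℝ (0 : H) (x : H) = inner ℝ y (A x) := by
      intro x
      rw [hy' x, inner_zero_left]
    have hyd : y ∈ A.adjoint.domain := LinearPMap.mem_adjoint_domain_of_exists y ⟨0, hex⟩
    have hyz : A.adjoint ⟨y, hyd⟩ = 0 := LinearPMap.adjoint_apply_eq hd ⟨y, hyd⟩ hex
    have hyd' : y ∈ A.domain := by rw [← hA]; exact hyd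
    have hyz' : A ⟨y, hyd'⟩ = 0 := by
      have : ∀ (B : H →ₗ.[ℝ] H) (hB : B = A) (h : y ∈ B.domain), B ⟨y, h⟩ = 0 → A ⟨y, hyd'⟩ = 0 := by
        intro B hB h h0
        subst hB
        exact h0
      exact this _ hA hyd hyz
    have h := hlow ⟨y, hyd'⟩
    rw [hyz', norm_zero] at h
    have h6 : ‖y‖ ≤ 0 := by
      by_contra hh
      push_neg at hh
      have : b * ‖y‖ ≤ 0 := h
      nlinarith [mul_pos hb hh]
    exact norm_le_zero_iff.1 h6
  let e : A.domain ≃ₗ[ℝ] H := LinearEquiv.ofBijective A.toFun ⟨hinj, LinearMap.range_eq_top.1 hran⟩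
  have he : ∀ x : A.domain, e x = A x := fun x => rfl
  let T0 : H →ₗ[ℝ] H := A.domain.subtype ∘ₗ e.symm.toLinearMap
  have hT0 : ∀ x, T0 x = ((e.symm x : A.domain) : H) := fun x => rfl
  let T : H →L[ℝ] H := T0.mkContinuous b⁻¹ (by
    intro x
    rw [hT0]
    have h := hlow (e.symm x)
    rw [← he, LinearEquiv.apply_symm_apply] at h
    rw [← div_eq_inv_mul, le_div_iff₀ hb]
    linarith)
  have hT : ∀ x, T x = ((e.symm x : A.domain) : H) := fun x => rfl
  have hAe : ∀ x, A (e.symm x) = x := fun x => by rw [← he, LinearEquiv.apply_symm_apply]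
  refine ⟨T, ?_, ?_, ?_, ?_, ?_, ?_⟩
  · intro x
    rw [hT]
    exact (e.symm x).2
  · intro x h
    have : (⟨T x, h⟩ : A.domain) = e.symm x := Subtype.ext (hT x)
    rw [this, hAe]
  · intro w
    rw [hT, ← he, LinearEquiv.symm_apply_apply]
  · intro x y
    rw [hT, hT]
    have h := hsym (e.symm x) (e.symm y)
    rw [hAe, hAe] at h
    exact h.symm
  · intro x
    rw [hT]
    have h := hco (e.symm x)
    rw [hAe] at h
    rw [real_inner_comm]
    exact h
  · have : (A.domain : Set H) ⊆ Set.range T := by
      intro x hx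
      refine ⟨A ⟨x, hx⟩, ?_⟩
      rw [hT, ← he, LinearEquiv.symm_apply_apply]
    exact hd.mono this

end Pool.Agent.X250.DW3
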